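import Pool.Agent.Helper870.FAFIN3
import Pool.Agent.Helper870.FAINF3
import Pool.Agent.Helper870.FAINF4
import Pool.Agent.Helper870.FARB3

set_option autoImplicit false

open MeasureTheory

noncomputable section

namespace Pool.Agent.Results.MP_ac169e_pr.ConvergenceAllLaws

/-- Configurations on the integers: `true` is the value 1 (healthy), `false` is the value 0 (infected). -/
abbrev Config := ℤ → Bool

/-- The constraint: 1 if at least one neighbour of `x` is infected, else 0. -/
def facil (x : ℤ) (η : Config) : ℝ := if η (x - 1) = false ∨ η (x + 1) = false then 1 else 0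

/-- The configuration flipped at `x`. -/
def flipAt (η : Config) (x : ℤ) : Config := Function.update η x (!η x)

/-- The flip rate: constraint times `q` if `x` is healthy, times `1 - q` if `x` is infected. -/
def flipRate (q : ℝ) (x : ℤ) (η : Config) : ℝ := facil x η * (if η x = true then q else 1 - q)

/-- The FA-1f generator (a finite sum when `f` depends on finitely many coordinates). -/
def gen (q : ℝ) (f : Config → ℝ) (η : Config) : ℝ :=
  ∑' x : ℤ, flipRate q x η * (f (flipAt η x) - f η)

/-- The generator with updates only at the sites of `[-n, n]`. -/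
def genBox (q : ℝ) (n : ℕ) (f : Config → ℝ) (η : Config) : ℝ :=
  ∑ x ∈ Finset.Icc (-(n : ℤ)) n, flipRate q x η * (f (flipAt η x) - f η)

/-- The semigroup `exp (t * genBox)` as an exponential series. -/
def semiBox (q : ℝ) (n : ℕ) (t : ℝ) (f : Config → ℝ) (η : Config) : ℝ :=
  ∑' m : ℕ, t ^ m / (m.factorial : ℝ) * ((genBox q n)^[m] f) η

/-- The semigroup of the process on the whole line: `semi q t f η` is the expectation of `f` at time `t`
started from `η`, defined as the limit of the semigroups of growing boxes. -/
def semi (q : ℝ) (t : ℝ) (f : Config → ℝ) (η : Config) : ℝ :=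
  Filter.limUnder Filter.atTop (fun n : ℕ => semiBox q n t f η)

/-- Functions of finitely many coordinates. -/
def IsLocal (f : Config → ℝ) : Prop :=
  ∃ S : Finset ℤ, ∀ η η' : Config, (∀ x ∈ S, η x = η' x) → f η = f η'

/-- The product measure under which every site is infected with probability `q`. -/
def equil (q : ℝ) (h0 : 0 < q) (h1 : q < 1) : Measure Config :=
  Measure.infinitePi (fun _ : ℤ => ProbabilityTheory.bernoulliMeasure false true ⟨q, h0.le, h1.le⟩)

/-- FA-1f on the integers, every infection density `q` in `(0,1)`. The process exists: box semigroups converge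
uniformly on local functions to a positive normalised family solving the forward equation of the generator.
For every initial law under which almost surely some site is infected, the expectation of every local function
converges to its equilibrium mean. -/
theorem result (q : ℝ) (h0 : 0 < q) (h1 : q < 1) :
    (∀ f : Config → ℝ, IsLocal f →
      (∀ t : ℝ, 0 ≤ t → TendstoUniformly (fun (n : ℕ) (η : Config) => semiBox q n t f η) (semi q t f)
        Filter.atTop) ∧
      (∀ η, semi q 0 f η = f η) ∧
      (∀ t : ℝ, 0 < t → ∀ η, HasDerivAt (fun s => semi q s f η) (semi q t (gen q f) η) t) ∧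
      ((∀ η, 0 ≤ f η) → ∀ t : ℝ, 0 ≤ t → ∀ η, 0 ≤ semi q t f η) ∧
      (∀ t : ℝ, ∀ η, semi q t (fun _ => 1) η = 1)) ∧
    ∀ (ν : Measure Config), IsProbabilityMeasure ν → ν {η | ∃ x : ℤ, η x = false} = 1 →
      ∀ f : Config → ℝ, IsLocal f →
        Filter.Tendsto (fun t : ℝ => ∫ η, semi q t f η ∂ν) Filter.atTop
          (nhds (∫ η, f η ∂(equil q h0 h1))) := by
  refine ⟨?_, ?_⟩
  · intro f hf
    obtain ⟨S, hS⟩ := hf
    obtain ⟨r, hr⟩ := FA.Inf.Loc_of_finset f S hS
    refine ⟨?_, ?_, ?_, ?_, ?_⟩
    · intro t ht
      exact FA.Inf.Pinf_lim h0.le h1.le r f hr t ht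
    · intro η
      exact FA.Inf.Pinf_zero f η
    · intro t ht η
      exact FA.Inf.Pinf_deriv h0.le h1.le r f hr t ht η
    · intro hf0 t ht η
      exact FA.Inf.Pinf_nonneg h0.le h1.le r f hr hf0 t ht η
    · intro t η
      exact FA.Inf.Pinf_one t η
  · intro ν hν hinf f hf
    obtain ⟨S, hS⟩ := hf
    obtain ⟨r, hr⟩ := FA.Inf.Loc_of_finset f S hS
    obtain ⟨θ, c, C, N0, hθ, hc, hC, hp⟩ := FA.pers_tor h0 h1
    have hmeas : MeasurableSet {η : Config | ∃ x : ℤ, η x = false} := by
      have : {η : Config | ∃ x : ℤ, η x = false} = ⋃ x : ℤ, {η : Config | η x = false} := by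
        ext η; simp
      rw [this]
      exact MeasurableSet.iUnion (fun x => measurableSet_eq_fun (measurable_pi_apply x) measurable_const)
    have hae : ∀ᵐ η ∂ν, ∃ x : ℤ, η x = false := by
      rw [ae_iff]
      have h2 := prob_compl_eq_zero_iff (μ := ν) hmeas
      exact h2.2 hinf
    exact FA.Inf.fin3 h0 h1 FA.sysTor θ c C hθ hc hC N0 hp ν hae r f hr

end Pool.Agent.Results.MP_ac169e_pr.ConvergenceAllLaws
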